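import Pool.Agent.Helper56K9.SO.Dual

/-!
# Project PJ: the double orthogonal complement of a finite set (helper56)
-/

set_option autoImplicit false

namespace Pool.Agent.Helper56K9.PJ

open Pool.Agent.Helper14K9.SO Pool.Agent.Y924.UF Pool.Agent.Helper56K9.SO

section

variable {p : ℕ} [Fact p.Prime]

theorem dd_zero (F : Set (LaurentSeries (ZMod p))) : (0 : LaurentSeries (ZMod p)) ∈ DD F := by
  intro c _
  simp

theorem dd_add (F : Set (LaurentSeries (ZMod p))) {x y : LaurentSeries (ZMod p)}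
    (hx : x ∈ DD F) (hy : y ∈ DD F) : x + y ∈ DD F := by
  intro c hc
  rw [mul_add, HahnSeries.coeff_add, hx c hc, hy c hc, add_zero]

theorem dd_neg (F : Set (LaurentSeries (ZMod p))) {x : LaurentSeries (ZMod p)}
    (hx : x ∈ DD F) : -x ∈ DD F := by
  intro c hc
  rw [mul_neg, HahnSeries.coeff_neg, hx c hc, neg_zero]

theorem dd_smul (F : Set (LaurentSeries (ZMod p))) (k : ZMod p) {x : LaurentSeries (ZMod p)}
    (hx : x ∈ DD F) : k • x ∈ DD F := by
  intro c hc
  rw [coeff_smul', hx c hc, mul_zero]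

/-- the double complement as a group -/
def DDg (F : Set (LaurentSeries (ZMod p))) : AddSubgroup (LaurentSeries (ZMod p)) where
  carrier := DD F
  zero_mem' := dd_zero F
  add_mem' := fun hx hy => dd_add F hx hy
  neg_mem' := fun hx => dd_neg F hx

theorem subset_dd (F : Set (LaurentSeries (ZMod p))) : F ⊆ DD F := fun a ha _ hc => hc a ha

theorem dd_mono {F F' : Set (LaurentSeries (ZMod p))} (h : F ⊆ F') : DD F ⊆ DD F' :=
  fun _ hy c hc => hy c fun a ha => hc a (h ha)

theorem dd_empty : DD (∅ : Set (LaurentSeries (ZMod p))) = {0} := by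
  ext y
  rw [Set.mem_singleton_iff]
  constructor
  · intro hy
    by_contra h
    obtain ⟨s, hs⟩ := lam_nondeg p y h
    exact hs (hy s (fun a ha => absurd ha (Set.notMem_empty a)))
  · rintro rfl
    exact dd_zero _

theorem mem_dd_insert {F : Set (LaurentSeries (ZMod p))} {a y : LaurentSeries (ZMod p)} :
    y ∈ DD (insert a F) ↔ ∃ k : ZMod p, ∃ z ∈ DD F, y = k • a + z := by
  constructor
  · intro hy
    obtain ⟨k, z, hz, h⟩ := Set.mem_iUnion.1 (dd_insert F a hy)
    exact ⟨k, z, hz, h.symm⟩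
  · rintro ⟨k, z, hz, rfl⟩
    exact dd_add _ (dd_smul _ k (subset_dd _ (Set.mem_insert _ _)))
      (dd_mono (Set.subset_insert _ _) hz)

theorem dd_insert_of_mem {F : Set (LaurentSeries (ZMod p))} {a : LaurentSeries (ZMod p)}
    (ha : a ∈ DD F) : DD (insert a F) = DD F := by
  ext y
  rw [mem_dd_insert]
  constructor
  · rintro ⟨k, z, hz, rfl⟩
    exact dd_add _ (dd_smul _ k ha) hz
  · intro hy
    exact ⟨0, y, hy, by simp⟩

theorem ncard_dd_insert {F : Set (LaurentSeries (ZMod p))} {a : LaurentSeries (ZMod p)}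
    (ha : a ∉ DD F) : (DD (insert a F)).ncard = p * (DD F).ncard := by
  have h1 : DD (insert a F) =
      (fun q : ZMod p × LaurentSeries (ZMod p) => q.1 • a + q.2) ''
        ((Set.univ : Set (ZMod p)) ×ˢ DD F) := by
    ext y
    rw [mem_dd_insert, Set.mem_image]
    constructor
    · rintro ⟨k, z, hz, rfl⟩
      exact ⟨(k, z), ⟨Set.mem_univ _, hz⟩, rfl⟩
    · rintro ⟨⟨k, z⟩, ⟨-, hz⟩, rfl⟩
      exact ⟨k, z, hz, rfl⟩
  rw [h1, Set.InjOn.ncard_image, Set.ncard_prod, Set.ncard_univ, Nat.card_zmod]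
  rintro ⟨k, z⟩ ⟨-, hz⟩ ⟨k', z'⟩ ⟨-, hz'⟩ h
  simp only at hz hz' h
  have h2 : (k - k') • a = z' - z := by
    rw [sub_smul, sub_eq_sub_iff_add_eq_add, h, add_comm]
  have h3 : k = k' := by
    by_contra hne
    apply ha
    have h4 : k - k' ≠ 0 := sub_ne_zero.2 hne
    have h5 : a = (k - k')⁻¹ • (z' - z) := by
      rw [← h2, smul_smul, inv_mul_cancel₀ h4, one_smul]
    rw [h5]
    refine dd_smul _ _ ?_
    rw [sub_eq_add_neg]
    exact dd_add _ hz' (dd_neg _ hz)
  subst h3
  rw [sub_self, zero_smul] at h2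
  have h6 : z = z' := (sub_eq_zero.1 h2.symm).symm
  rw [h6]

theorem ncard_dd (F : Set (LaurentSeries (ZMod p))) (hF : F.Finite) :
    ∃ n : ℕ, (DD F).ncard = p ^ n := by
  induction F, hF using Set.Finite.induction_on with
  | empty => exact ⟨0, by rw [dd_empty, Set.ncard_singleton, pow_zero]⟩
  | @insert a F _ _ ih =>
    obtain ⟨n, hn⟩ := ih
    by_cases ha : a ∈ DD F
    · exact ⟨n, by rw [dd_insert_of_mem ha, hn]⟩
    · exact ⟨n + 1, by rw [ncard_dd_insert ha, hn, pow_succ, mul_comm]⟩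

/-- elements with increasing orders -/
theorem dd_seq (x : ℕ → LaurentSeries (ZMod p)) (hne : ∀ n, x n ≠ 0)
    (hm : StrictMono fun n => (x n).order) (n : ℕ) :
    (∀ y ∈ DD (x '' Set.Iio n), y ≠ 0 → ∃ m : ℤ, y.coeff m ≠ 0 ∧ m < (x n).order) ∧
    (DD (x '' Set.Iio n)).ncard = p ^ n := by
  induction n with
  | zero =>
    have h : x '' Set.Iio 0 = ∅ := by
      rw [Set.image_eq_empty]
      ext k
      simp
    rw [h, dd_empty]
    refine ⟨fun y hy h0 => absurd (Set.mem_singleton_iff.1 hy) h0, ?_⟩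
    rw [Set.ncard_singleton, pow_zero]
  | succ n ih =>
    have h : x '' Set.Iio (n + 1) = insert (x n) (x '' Set.Iio n) := by
      rw [← Set.image_insert_eq]
      congr 1
      ext k
      simp only [Set.mem_Iio, Set.mem_insert_iff]
      omega
    have hlt : (x n).order < (x (n + 1)).order := hm (Nat.lt_succ_self n)
    have hnot : x n ∉ DD (x '' Set.Iio n) := by
      intro hx
      obtain ⟨m, h1, h2⟩ := ih.1 _ hx (hne n)
      exact h1 (HahnSeries.coeff_eq_zero_of_lt_order h2)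
    rw [h]
    refine ⟨fun y hy h0 => ?_, ?_⟩
    · obtain ⟨k, z, hz, rfl⟩ := mem_dd_insert.1 hy
      by_cases hz0 : z = 0
      · subst hz0
        rw [add_zero] at h0 ⊢
        have hk : k ≠ 0 := by
          rintro rfl
          exact h0 (zero_smul _ _)
        refine ⟨(x n).order, ?_, hlt⟩
        rw [HahnSeries.coeff_smul, smul_eq_mul]
        exact mul_ne_zero hk (HahnSeries.coeff_order_eq_zero.not.2 (hne n))
      · obtain ⟨m, h1, h2⟩ := ih.1 z hz hz0
        refine ⟨m, ?_, h2.trans hlt⟩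
        rw [HahnSeries.coeff_add, HahnSeries.coeff_smul,
          HahnSeries.coeff_eq_zero_of_lt_order h2, smul_zero, zero_add]
        exact h1
    · rw [ncard_dd_insert hnot, ih.2, pow_succ, mul_comm]

end

end Pool.Agent.Helper56K9.PJ
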