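import Pool.Agent.Helper14K9.PJ.Base
import Pool.Agent.Helper56K9.PJ.Dd
import Pool.Agent.Y606.UF.Fin

/-!
# Project PJ, leaf DIS (helper56)
-/

set_option autoImplicit false

namespace Pool.Agent.Helper56K9.PJ

open Function
open Pool.Agent.Y924.EL Pool.Agent.Y924.UF
open Pool.Agent.Helper14K9.SO Pool.Agent.Helper14K9.PJ Pool.Agent.Helper56K9.SO

section

variable {p : ℕ} [Fact p.Prime] {P : Set (LaurentSeries (ZMod p))}

theorem rc_ne {K : Type} [CommRing K] {P : Set K} (i : ℕ) : Rc P (fun v => v i ≠ 0) :=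
  (Rc.eqC i 0).not

/-- finiteness is definable -/
theorem rc_fin {X : (ℕ → LaurentSeries (ZMod p)) → Set (LaurentSeries (ZMod p))} (N : ℕ)
    (hm : ∀ j, N ≤ j → Rc P (fun v => v j ∈ X v))
    (hi : ∀ j, N ≤ j → ∀ v a, X (update v j a) = X v) :
    Rc P (fun v => (X v).Finite) := by
  -- `b = v N`, `c = v (N + 1)`, `x = v (N + 2)`, `y = v (N + 3)`
  have h1 : Rc P (fun v => ∀ x, x ∈ X v → ∃ z, z ∈ OO p ∧ x - 0 = v (N + 1) * z) := by
    refine Rc.all' (N + 2) (R := fun v x => x ∈ X v → ∃ z, z ∈ OO p ∧ x - 0 = v (N + 1) * z)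
      ((hm (N + 2) (by omega)).imp
        (rc_ball (Tk.var (N + 2)) (Tk.const 0) (Tk.var (N + 1)))) ?_
    intro v a c
    rw [hi (N + 2) (by omega), update_of_ne (by omega)]
  have h2 : Rc P (fun v => ∀ x, ∀ y, x ∈ X v → y ∈ X v →
      (∃ z, z ∈ OO p ∧ x - y = v N * z) → x = y) := by
    refine Rc.all' (N + 2) (R := fun v x => ∀ y, x ∈ X v → y ∈ X v →
      (∃ z, z ∈ OO p ∧ x - y = v N * z) → x = y) ?_ ?_
    · refine Rc.all' (N + 3) (R := fun v y => v (N + 2) ∈ X v → y ∈ X v →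
        (∃ z, z ∈ OO p ∧ v (N + 2) - y = v N * z) → v (N + 2) = y) ?_ ?_
      · exact (hm (N + 2) (by omega)).imp ((hm (N + 3) (by omega)).imp
          ((rc_ball (Tk.var (N + 2)) (Tk.var (N + 3)) (Tk.var N)).imp (Rc.eqV (N + 2) (N + 3))))
      · intro v a c
        rw [hi (N + 3) (by omega), update_of_ne (by omega), update_of_ne (by omega)]
    · intro v a c
      rw [hi (N + 2) (by omega), update_of_ne (by omega)]
  have h3 : Rc P (fun v => ∃ b c, b ≠ 0 ∧ c ≠ 0 ∧
      (∀ x, x ∈ X v → ∃ z, z ∈ OO p ∧ x - 0 = c * z) ∧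
      ∀ x, ∀ y, x ∈ X v → y ∈ X v → (∃ z, z ∈ OO p ∧ x - y = b * z) → x = y) := by
    refine Rc.ex' N (R := fun v b => ∃ c, b ≠ 0 ∧ c ≠ 0 ∧
      (∀ x, x ∈ X v → ∃ z, z ∈ OO p ∧ x - 0 = c * z) ∧
      ∀ x, ∀ y, x ∈ X v → y ∈ X v → (∃ z, z ∈ OO p ∧ x - y = b * z) → x = y) ?_ ?_
    · refine Rc.ex' (N + 1) (R := fun v c => v N ≠ 0 ∧ c ≠ 0 ∧
        (∀ x, x ∈ X v → ∃ z, z ∈ OO p ∧ x - 0 = c * z) ∧
        ∀ x, ∀ y, x ∈ X v → y ∈ X v → (∃ z, z ∈ OO p ∧ x - y = v N * z) → x = y)
        ((rc_ne N).and ((rc_ne (N + 1)).and (h1.and h2))) ?_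
      intro v a c
      rw [hi (N + 1) (by omega), update_of_ne (by omega)]
    · intro v a c
      rw [hi N le_rfl]
  refine h3.congr fun v => ?_
  rw [Pool.Agent.Y606.UF.t_FIN p (X v)]
  refine exists_congr fun b => exists_congr fun c => and_congr_right fun hb =>
    and_congr_right fun hc => and_congr ?_ ?_
  · refine forall_congr' fun x => imp_congr_right fun _ => exists_congr fun z =>
      and_congr_right fun _ => ?_
    rw [sub_zero]
    exact eq_comm
  · refine forall_congr' fun x => forall_congr' fun y => imp_congr_right fun _ =>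
      imp_congr_right fun _ => imp_congr_left ?_
    constructor
    · rintro ⟨z, hz, h⟩
      exact ⟨z, _, hz, rfl, by rw [← h, sub_add_cancel]⟩
    · rintro ⟨z, y', hz, h, h'⟩
      exact ⟨z, hz, by rw [← h', h, add_sub_cancel_right]⟩

end

theorem dis (hNUM : S_NUM) (hPOW : S_POW) : S_DIS := by
  classical
  intro p _ P hP
  obtain ⟨ρ, hρ⟩ := hNUM p P hP
  obtain ⟨φ, hφ⟩ := hP
  obtain ⟨V, hV⟩ := Pool.Agent.Y686.UF.t_CLO.1 φ
  have hl : Pool.Agent.Helper14K9.PJ.lam (0 : LaurentSeries (ZMod p)) = 0 := by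
    simp [Pool.Agent.Helper14K9.PJ.lam]
  -- the formula depends on the variables below `V` only
  have hag : ∀ u w : ℕ → LaurentSeries (ZMod p), (∀ j, j < V → u j = w j) →
      DefP P φ u = DefP P φ w := by
    intro u w h
    ext x
    show Sat P φ (update u 0 x) ↔ Sat P φ (update w 0 x)
    refine sat_agree P φ (hV V le_rfl) _ _ fun j hj => ?_
    rcases eq_or_ne j 0 with rfl | h0
    · rw [update_self, update_self]
    · rw [update_of_ne h0, update_of_ne h0, h j hj]
  have hD0 : ∀ v a, DefP P φ (update v 0 a) = DefP P φ v := by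
    intro v a
    ext x
    show Sat P φ (update (update v 0 a) 0 x) ↔ Sat P φ (update v 0 x)
    rw [update_idem]
  have hDj : ∀ j, V + 1 ≤ j → ∀ v a, DefP P φ (update v j a) = DefP P φ v := by
    intro j hj v a
    refine hag _ _ fun i hi => ?_
    rw [update_of_ne (by omega)]
  have hDm : ∀ j : ℕ, Rc P (fun v => v j ∈ DefP P φ v) := by
    intro j
    exact (Rc.of_rl ⟨φ, fun v => Iff.rfl⟩ : Rc P (fun v => Sat P φ v)).sub (Tk.var j) 0
  have hFin : Rc P (fun v => (DefP P φ v).Finite) :=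
    rc_fin (V + 1) (fun j _ => hDm j) hDj
  -- the groups
  set F : (ℕ → LaurentSeries (ZMod p)) → Set (LaurentSeries (ZMod p)) :=
    fun v => if (DefP P φ v).Finite then DefP P φ v else ∅ with hF
  have hFfin : ∀ v, (F v).Finite := by
    intro v
    simp only [hF]
    split_ifs with h
    · exact h
    · exact Set.finite_empty
  have hFm : ∀ j, Rc P (fun v => v j ∈ F v) := by
    intro j
    refine (hFin.and (hDm j)).congr fun v => ?_
    simp only [hF]
    split_ifs with h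
    · simp [h]
    · simp [h]
  have hFj : ∀ j, V + 1 ≤ j → ∀ v a, F (update v j a) = F v := by
    intro j hj v a
    simp only [hF, hDj j hj]
  have hF0 : ∀ v a, F (update v 0 a) = F v := by
    intro v a
    simp only [hF, hD0]
  have h1 : Rc P (fun v => ∀ a, a ∈ F v → Pool.Agent.Helper14K9.PJ.lam (v (V + 1) * a) =
      Pool.Agent.Helper14K9.PJ.lam (0 : LaurentSeries (ZMod p))) := by
    refine Rc.all' (V + 2) (R := fun v a => a ∈ F v →
      Pool.Agent.Helper14K9.PJ.lam (v (V + 1) * a) =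
      Pool.Agent.Helper14K9.PJ.lam (0 : LaurentSeries (ZMod p)))
      ((hFm (V + 2)).imp (rc_lam ((Tk.var (V + 1)).mul (Tk.var (V + 2))) (Tk.const 0))) ?_
    intro v a c
    rw [hFj (V + 2) (by omega), update_of_ne (by omega)]
  have h2 : Rc P (fun v => ∀ c, (∀ a, a ∈ F v → Pool.Agent.Helper14K9.PJ.lam (c * a) =
      Pool.Agent.Helper14K9.PJ.lam (0 : LaurentSeries (ZMod p))) →
      Pool.Agent.Helper14K9.PJ.lam (c * v 0) =
      Pool.Agent.Helper14K9.PJ.lam (0 : LaurentSeries (ZMod p))) := by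
    refine Rc.all' (V + 1) (R := fun v c => (∀ a, a ∈ F v →
      Pool.Agent.Helper14K9.PJ.lam (c * a) =
      Pool.Agent.Helper14K9.PJ.lam (0 : LaurentSeries (ZMod p))) →
      Pool.Agent.Helper14K9.PJ.lam (c * v 0) =
      Pool.Agent.Helper14K9.PJ.lam (0 : LaurentSeries (ZMod p)))
      (h1.imp (rc_lam ((Tk.var (V + 1)).mul (Tk.var 0)) (Tk.const 0))) ?_
    intro v a c
    rw [hFj (V + 1) (by omega), update_of_ne (by omega)]
  have hFam : Fam P (fun v => DD (F v)) := by
    refine ⟨h2.congr fun v => ?_, fun v a => by simp only [hF0], fun v => dd_finite _ (hFfin v)⟩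
    rw [hl]
    rfl
  have h3 : Tk P (fun v => tq p ^ (DD (F v)).ncard) :=
    hPOW p P ρ hρ (fun v => DD (F v)) hFam (fun v => ⟨DDg (F v), rfl⟩) (fun _ => tq p)
      (Tk.const _)
  have h4 : Rc P (fun v => (DefP P φ v).Finite ∧ tq p ^ (DD (F v)).ncard = v (V + 1)) :=
    hFin.and (Rc.eqK h3 (Tk.var (V + 1)))
  set E : Set (LaurentSeries (ZMod p)) :=
    {x | ∃ u, (DefP P φ u).Finite ∧ tq p ^ (DD (F u)).ncard = x} with hE
  have h5 : Rc P (fun v => v (V + 1) ∈ E) := by
    refine (h4.exB (V + 1)).congr fun v => ?_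
    constructor
    · rintro ⟨w, h6, h7, h8⟩
      rw [h6 (V + 1) le_rfl] at h8
      exact ⟨w, h7, h8⟩
    · rintro ⟨u, h6, h7⟩
      refine ⟨fun j => if j < V + 1 then u j else v j, fun j hj => ?_, ?_⟩
      · simp only
        rw [if_neg (by omega)]
      · have h8 : DefP P φ (fun j => if j < V + 1 then u j else v j) = DefP P φ u := by
          refine hag _ _ fun j hj => ?_
          rw [if_pos (by omega)]
        have h9 : F (fun j => if j < V + 1 then u j else v j) = F u := by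
          simp only [hF]
          rw [h8]
        rw [h8, h9]
        refine ⟨h6, ?_⟩
        show _ = (if V + 1 < V + 1 then u (V + 1) else v (V + 1))
        rw [if_neg (lt_irrefl _)]
        exact h7
  have h6 : Rc P (fun v => v 0 ∈ E) :=
    Rc.app (ρ := id) surjective_id (R := fun _ c => c ∈ E) (Tk.var 0) (V + 1) h5
      fun _ _ _ => Iff.rfl
  refine ⟨E, ?_, ?_, h6⟩
  · -- infinite
    intro hEf
    obtain ⟨B, hB⟩ := (hEf.image HahnSeries.order).bddAbove
    obtain ⟨v, hv1, hv2⟩ := hφ B.toNat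
    have h7 : tq p ^ (DD (F v)).ncard ∈ E := ⟨v, hv1, rfl⟩
    have h8 := hB ⟨_, h7, rfl⟩
    have h9 : HahnSeries.order (tq p ^ (DD (F v)).ncard) = ((DD (F v)).ncard : ℤ) := by
      rw [tq, HahnSeries.single_pow, one_pow, HahnSeries.order_single one_ne_zero]
      simp
    rw [h9] at h8
    have h10 : F v = DefP P φ v := by
      simp only [hF]
      rw [if_pos hv1]
    have h11 : (DefP P φ v).ncard ≤ (DD (F v)).ncard := by
      rw [← h10]
      exact Set.ncard_le_ncard (subset_dd _) (dd_finite _ (hFfin v))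
    omega
  · rintro x ⟨u, -, rfl⟩
    obtain ⟨n, hn⟩ := ncard_dd (F u) (hFfin u)
    exact ⟨n, by rw [hn]⟩

end Pool.Agent.Helper56K9.PJ
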