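import Pool.Agent.Helper14K9.PJ.Base
import Pool.Agent.Helper56K9.PJ.Dd

/-!
# Project PJ, leaf GRP (helper56)
-/

set_option autoImplicit false

namespace Pool.Agent.Helper56K9.PJ

open Function
open Pool.Agent.Y924.EL Pool.Agent.Y924.UF
open Pool.Agent.Helper14K9.SO Pool.Agent.Helper14K9.PJ Pool.Agent.Helper56K9.SO

theorem grp : S_GRP := by
  intro p _ P ρ hρ s e hE
  -- the injectivity of `e`
  have hinj : Injective e := by
    intro n m h
    exact hE.mono.injective (by simp only [h])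
  -- the predecessors of `g`
  set Xf : LaurentSeries (ZMod p) → Set (LaurentSeries (ZMod p)) :=
    fun g => {x | ∃ i n, x = e i ∧ g = e n ∧ i < n} with hXf
  have hXe : ∀ n, Xf (e n) = e '' Set.Iio n := by
    intro n
    ext x
    simp only [hXf, Set.mem_ofPred_eq, Set.mem_image, Set.mem_Iio]
    constructor
    · rintro ⟨i, m, h1, h2, h3⟩
      have := hinj h2
      subst this
      exact ⟨i, h3, h1.symm⟩
    · rintro ⟨i, h1, h2⟩
      exact ⟨i, n, h2.symm, rfl, h1⟩
  have hfin : ∀ g, (Xf g).Finite := by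
    intro g
    by_cases h : ∃ n, g = e n
    · obtain ⟨n, rfl⟩ := h
      rw [hXe]
      exact (Set.finite_Iio n).image _
    · have : Xf g = ∅ := by
        ext x
        simp only [hXf, Set.mem_ofPred_eq, Set.mem_empty_iff_false, iff_false]
        rintro ⟨i, n, -, h2, -⟩
        exact h ⟨n, h2⟩
      rw [this]
      exact Set.finite_empty
  have hcard : ∀ n, (Xf (e n)).ncard = n := by
    intro n
    rw [hXe, Set.ncard_image_of_injective _ hinj]
    simp
  have hmem : ∀ i j : ℕ, Rc P (fun v => v i ∈ Xf (v j)) := by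
    intro i j
    exact Rc.app2 (ρ := id) (σ := id) surjective_id surjective_id
      (R := fun x g => ∃ n m, x = e n ∧ g = e m ∧ n < m) hE.lt (Tk.var i) (Tk.var j)
  have hFam : Fam P (fun v => Xf (v 2)) := by
    refine ⟨hmem 0 2, fun v a => ?_, fun v => hfin _⟩
    show Xf (update v 0 a 2) = Xf (v 2)
    rw [update_of_ne (by norm_num)]
  have hc : Rc P (fun v => (Xf (v 2)).ncard = ρ (v 1)) :=
    Rc.eqT hρ.surj hρ.eqS (hρ.card _ hFam) (Ts.var hρ.eqS 1)
  refine ⟨fun n => DDg ((fun i => s - e i) '' Set.Iio n), fun n => ?_, ?_⟩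
  · refine ⟨dd_finite _ ((Set.finite_Iio n).image _), ?_⟩
    exact (dd_seq (fun i => s - e i) (fun i => sub_ne_zero.2 (hE.ne i).symm) hE.mono n).2
  · -- the definition
    have h1 : Rc P (fun v => ∃ n, v 2 = e n) :=
      Rc.app1 (ρ := id) surjective_id (R := fun z => ∃ n, z = e n) hE.mem (Tk.var 2)
    have h2 : Rc P (fun v => ∀ a, a ∈ Xf (v 2) → lam (v 3 * (s - a)) = lam (0 : LaurentSeries (ZMod p))) := by
      refine Rc.all' 4 (R := fun v a => a ∈ Xf (v 2) → lam (v 3 * (s - a)) = lam (0 : LaurentSeries (ZMod p)))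
        ((hmem 4 2).imp (rc_lam ((Tk.var 3).mul ((Tk.const s).sub (Tk.var 4))) (Tk.const 0))) ?_
      intro v a c
      rw [update_of_ne (by norm_num), update_of_ne (by norm_num)]
    have h3 : Rc P (fun v => ∀ c, (∀ a, a ∈ Xf (v 2) → lam (c * (s - a)) = lam (0 : LaurentSeries (ZMod p))) →
        lam (c * v 0) = lam (0 : LaurentSeries (ZMod p))) := by
      refine Rc.all' 3 (R := fun v c => (∀ a, a ∈ Xf (v 2) → lam (c * (s - a)) = lam (0 : LaurentSeries (ZMod p))) →
        lam (c * v 0) = lam (0 : LaurentSeries (ZMod p))) (h2.imp (rc_lam ((Tk.var 3).mul (Tk.var 0)) (Tk.const 0))) ?_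
      intro v a c
      rw [update_of_ne (by norm_num), update_of_ne (by norm_num)]
    have h4 : Rc P (fun v => ∃ g, (∃ n, g = e n) ∧ (Xf g).ncard = ρ (v 1) ∧
        ∀ c, (∀ a, a ∈ Xf g → lam (c * (s - a)) = lam (0 : LaurentSeries (ZMod p))) →
          lam (c * v 0) = lam (0 : LaurentSeries (ZMod p))) := by
      refine Rc.ex' 2 (R := fun v g => (∃ n, g = e n) ∧ (Xf g).ncard = ρ (v 1) ∧
        ∀ c, (∀ a, a ∈ Xf g → lam (c * (s - a)) = lam (0 : LaurentSeries (ZMod p))) →
          lam (c * v 0) = lam (0 : LaurentSeries (ZMod p))) (h1.and (hc.and h3)) ?_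
      intro v a c
      rw [update_of_ne (by norm_num), update_of_ne (by norm_num)]
    refine h4.congr fun v => ?_
    have hl : lam (0 : LaurentSeries (ZMod p)) = 0 := by simp [Pool.Agent.Helper14K9.PJ.lam]
    rw [hl]
    have key : ∀ n : ℕ, (∀ c, (∀ a, a ∈ Xf (e n) → lam (c * (s - a)) = 0) → lam (c * v 0) = 0) ↔
        v 0 ∈ DD ((fun i => s - e i) '' Set.Iio n) := by
      intro n
      rw [hXe]
      constructor
      · intro h c hc'
        refine h c fun a ha => ?_
        obtain ⟨i, hi, rfl⟩ := ha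
        exact hc' _ ⟨i, hi, rfl⟩
      · intro h c hc'
        refine h c ?_
        rintro a ⟨i, hi, rfl⟩
        exact hc' _ ⟨i, hi, rfl⟩
    constructor
    · rintro ⟨g, ⟨n, rfl⟩, h5, h6⟩
      rw [hcard] at h5
      rw [← h5]
      exact (key n).1 h6
    · intro h5
      exact ⟨e (ρ (v 1)), ⟨_, rfl⟩, hcard _, (key _).2 h5⟩

end Pool.Agent.Helper56K9.PJ
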